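import Mathlib

/-!
A box-free subset of a cube has `o(k^3)` points (three applications of Cauchy-Schwarz).
-/

set_option autoImplicit false

namespace Pool.Agent.Lib.MP_be95e3_co

open Finset

lemma cs_step {W X : Type*} [Fintype W] [Fintype X] (g : W → X → ℝ) :
    (∑ w, ∑ x, g w x) ^ 2 ≤ Fintype.card W * ∑ w, ∑ x, ∑ x', g w x * g w x' := by
  have h := sq_sum_le_card_mul_sum_sq (s := (univ : Finset W)) (f := fun w => ∑ x, g w x)
  rw [card_univ] at h
  refine h.trans (le_of_eq ?_)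
  congr 1
  refine sum_congr rfl (fun w _ => ?_)
  rw [sq, sum_mul_sum]

theorem box_bound {X : Type*} [Fintype X] [DecidableEq X] (S : Finset (X × X × X))
    (hS : ∀ x y z : Fin 2 → X, (∀ i j k, (x i, y j, z k) ∈ S) →
      x 1 = x 0 ∨ y 1 = y 0 ∨ z 1 = z 0) :
    (S.card : ℝ) ^ 8 ≤ 3 * (Fintype.card X : ℝ) ^ 23 := by
  set k : ℝ := (Fintype.card X : ℝ) with hk
  have hk0 : 0 ≤ k := Nat.cast_nonneg _
  let s : X → X → X → ℝ := fun x y z => if (x, y, z) ∈ S then 1 else 0
  have hs0 : ∀ x y z, 0 ≤ s x y z := by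
    intro x y z; simp only [s]; split_ifs <;> norm_num
  have h0 : (S.card : ℝ) = ∑ w : X × X, ∑ x, s x w.1 w.2 := by
    rw [sum_comm, ← Fintype.sum_prod_type']
    simp [s]
  let T1 : ℝ := ∑ w : X × X × X, ∑ y, s w.1 y w.2.2 * s w.2.1 y w.2.2
  let T2 : ℝ := ∑ w : X × X × X × X, ∑ z,
    (s w.1 w.2.2.1 z * s w.2.1 w.2.2.1 z) * (s w.1 w.2.2.2 z * s w.2.1 w.2.2.2 z)
  let T3 : ℝ := ∑ w : X × X × X × X, ∑ z, ∑ z',
    ((s w.1 w.2.2.1 z * s w.2.1 w.2.2.1 z) * (s w.1 w.2.2.2 z * s w.2.1 w.2.2.2 z)) *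
    ((s w.1 w.2.2.1 z' * s w.2.1 w.2.2.1 z') * (s w.1 w.2.2.2 z' * s w.2.1 w.2.2.2 z'))
  have h1 : (S.card : ℝ) ^ 2 ≤ k ^ 2 * T1 := by
    rw [h0]
    refine (cs_step (fun (w : X × X) x => s x w.1 w.2)).trans (le_of_eq ?_)
    congr 1
    · simp [hk, sq]
    · simp only [T1, Fintype.sum_prod_type]
      calc ∑ y, ∑ z, ∑ x, ∑ x', s x y z * s x' y z
          = ∑ z, ∑ y, ∑ x, ∑ x', s x y z * s x' y z := sum_comm
        _ = ∑ z, ∑ x, ∑ x', ∑ y, s x y z * s x' y z := by
            refine sum_congr rfl (fun z _ => ?_)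
            rw [sum_comm]
            refine sum_congr rfl (fun x _ => sum_comm)
        _ = ∑ x, ∑ x', ∑ z, ∑ y, s x y z * s x' y z := by
            rw [sum_comm]
            refine sum_congr rfl (fun x _ => sum_comm)
  have h2 : T1 ^ 2 ≤ k ^ 3 * T2 := by
    refine (cs_step (fun (w : X × X × X) y => s w.1 y w.2.2 * s w.2.1 y w.2.2)).trans
      (le_of_eq ?_)
    congr 1
    · simp [hk]; ring
    · simp only [T2, Fintype.sum_prod_type]
      refine sum_congr rfl (fun x _ => sum_congr rfl (fun x' _ => ?_))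
      rw [sum_comm]
      refine sum_congr rfl (fun y _ => sum_comm)
  have h3 : T2 ^ 2 ≤ k ^ 4 * T3 := by
    refine (cs_step (fun (w : X × X × X × X) z =>
      (s w.1 w.2.2.1 z * s w.2.1 w.2.2.1 z) * (s w.1 w.2.2.2 z * s w.2.1 w.2.2.2 z))).trans
      (le_of_eq ?_)
    congr 1
    simp [hk]; ring
  have h4 : T3 ≤ 3 * k ^ 5 := by
    have hterm : ∀ (w : X × X × X × X) (z z' : X),
        ((s w.1 w.2.2.1 z * s w.2.1 w.2.2.1 z) * (s w.1 w.2.2.2 z * s w.2.1 w.2.2.2 z)) *
        ((s w.1 w.2.2.1 z' * s w.2.1 w.2.2.1 z') * (s w.1 w.2.2.2 z' * s w.2.1 w.2.2.2 z'))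
        ≤ (if w.2.1 = w.1 then 1 else 0) + (if w.2.2.2 = w.2.2.1 then 1 else 0)
          + (if z' = z then 1 else 0) := by
      rintro ⟨x, x', y, y'⟩ z z'
      by_cases hall : ∀ i j l : Fin 2, (![x, x'] i, ![y, y'] j, ![z, z'] l) ∈ S
      · have a000 := hall 0 0 0
        have a001 := hall 0 0 1
        have a010 := hall 0 1 0
        have a011 := hall 0 1 1
        have a100 := hall 1 0 0
        have a101 := hall 1 0 1
        have a110 := hall 1 1 0
        have a111 := hall 1 1 1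
        have := hS _ _ _ hall
        simp only [Matrix.cons_val_zero, Matrix.cons_val_one] at *
        simp only [s, a000, a001, a010, a011, a100, a101, a110, a111, if_true, mul_one]
        rcases this with h | h | h <;> simp only [h, if_true] <;> split_ifs <;> norm_num
      · have hz : ((s x y z * s x' y z) * (s x y' z * s x' y' z)) *
            ((s x y z' * s x' y z') * (s x y' z' * s x' y' z')) = 0 := by
          push Not at hall
          obtain ⟨i, j, l, h⟩ := hall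
          fin_cases i <;> fin_cases j <;> fin_cases l <;> simp at h <;> simp [s, h]
        simp only
        rw [hz]
        split_ifs <;> norm_num
    calc T3 ≤ ∑ w : X × X × X × X, ∑ z : X, ∑ z' : X,
          ((if w.2.1 = w.1 then (1 : ℝ) else 0) + (if w.2.2.2 = w.2.2.1 then 1 else 0)
          + (if z' = z then 1 else 0)) :=
          sum_le_sum (fun w _ => sum_le_sum (fun z _ => sum_le_sum (fun z' _ => hterm w z z')))
      _ = 3 * k ^ 5 := by
          have e : ∀ (c : ℝ) (x x' : X), (∑ _y : X, ∑ _y' : X, if x' = x then c else 0)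
              = if x' = x then k * (k * c) else 0 := by
            intro c x x'
            split_ifs <;> simp [hk]
          simp only [Fintype.sum_prod_type, sum_add_distrib, e]
          simp [hk]
          ring
  have hT1 : 0 ≤ T1 :=
    sum_nonneg (fun w _ => sum_nonneg (fun y _ => mul_nonneg (hs0 _ _ _) (hs0 _ _ _)))
  calc (S.card : ℝ) ^ 8 = ((S.card : ℝ) ^ 2) ^ 4 := by ring
    _ ≤ (k ^ 2 * T1) ^ 4 := pow_le_pow_left₀ (sq_nonneg _) h1 4
    _ = k ^ 8 * (T1 ^ 2) ^ 2 := by ring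
    _ ≤ k ^ 8 * (k ^ 3 * T2) ^ 2 :=
        mul_le_mul_of_nonneg_left (pow_le_pow_left₀ (sq_nonneg _) h2 2) (by positivity)
    _ = k ^ 14 * T2 ^ 2 := by ring
    _ ≤ k ^ 14 * (k ^ 4 * (3 * k ^ 5)) :=
        mul_le_mul_of_nonneg_left (h3.trans (mul_le_mul_of_nonneg_left h4 (by positivity)))
          (by positivity)
    _ = 3 * k ^ 23 := by ring

end Pool.Agent.Lib.MP_be95e3_co
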