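import Pool.Agent.Lib.MP_be95e3_co.Geometry

/-!
A nine-parameter family of good 4-sets.
-/

set_option autoImplicit false

namespace Pool.Agent.Lib.MP_be95e3_co

open Classical

variable {F : Type*} [Field F]

/-- Canonical sign representative of a vertex. -/
noncomputable def rep (H : Set (F × F × F)) (v : F × F × F) : F × F × F :=
  if v ∈ H then v else -v

/-- The corresponding sign change of a lift. -/
noncomputable def srep (H : Set (F × F × F)) (x : Fin 5 → F) : Fin 5 → F :=
  if proj x ∈ H then x else -x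

lemma proj_srep (H : Set (F × F × F)) (x : Fin 5 → F) : proj (srep H x) = rep H (proj x) := by
  unfold srep rep
  split_ifs
  · rfl
  · exact proj_neg x

lemma rep_mem {H : Set (F × F × F)} (hH : ∀ v, v ∈ H ∨ -v ∈ H) (v : F × F × F) : rep H v ∈ H := by
  unfold rep
  split_ifs with h
  · exact h
  · exact (hH v).resolve_left h

lemma bil_srep_self (H : Set (F × F × F)) (x : Fin 5 → F) :
    bil (srep H x) (srep H x) = bil x x := by
  unfold srep
  split_ifs
  · rfl
  · simp [bil]

lemma bil_srep_zero (H : Set (F × F × F)) {x y : Fin 5 → F} (h : bil x y = 0) :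
    bil (srep H x) (srep H y) = 0 := by
  unfold srep
  unfold bil at h ⊢
  split_ifs <;> (try simp only [Pi.neg_apply]) <;>
    first | linear_combination h | linear_combination -h

lemma om_rep (H : Set (F × F × F)) {v w : F × F × F} (h : om v w ≠ 0) :
    om (rep H v) (rep H w) ≠ 0 := by
  intro h'
  apply h
  unfold rep at h'
  unfold om at h' ⊢
  split_ifs at h' <;> (try simp only [Prod.fst_neg, Prod.snd_neg] at h') <;>
    first | linear_combination h' | linear_combination -h'

lemma good_of_frame {e : F} {H : Set (F × F × F)} (hH : ∀ v, v ∈ H ∨ -v ∈ H)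
    (x : Fin 4 → Fin 5 → F) (h1 : ∀ j, bil (x j) (x j) = e)
    (h2 : ∀ j k, j ≠ k → bil (x j) (x k) = 0 ∧ om (proj (x j)) (proj (x k)) ≠ 0) :
    Good e H (Finset.univ.image (fun j => rep H (proj (x j)))) := by
  have hex : ∀ v ∈ Finset.univ.image (fun j => rep H (proj (x j))),
      ∃ j, rep H (proj (x j)) = v := by
    intro v hv
    simpa using hv
  choose! idx hidx using hex
  refine ⟨fun v => srep H (x (idx v)), ?_, ?_⟩
  · intro v hv
    refine ⟨?_, ?_, ?_⟩
    · rw [← hidx v hv]; exact rep_mem hH _
    · rw [proj_srep, hidx v hv]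
    · rw [bil_srep_self, h1]
  · intro v hv w hw hvw
    have hne : idx v ≠ idx w := by
      intro h
      apply hvw
      rw [← hidx v hv, ← hidx w hw, h]
    refine ⟨bil_srep_zero H (h2 _ _ hne).1, ?_⟩
    have := om_rep H (h2 _ _ hne).2
    rwa [hidx v hv, hidx w hw] at this

/-- isotropic vector -/
def nv (i r s : F) : Fin 4 → F := ![1 + r * s, -i * (1 - r * s), s - r, -i * (s + r)]
/-- first auxiliary isotropic vector -/
def av (i r : F) : Fin 4 → F := ![r, i * r, 1, -i]
/-- second auxiliary isotropic vector -/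
def bv (i s : F) : Fin 4 → F := ![s, i * s, -1, -i]
/-- dual isotropic vector -/
def ns (i : F) : Fin 4 → F := ![1, i, 0, 0]

lemma base_id {i : F} (hi : i * i = -1) (r s : F) (j k : Fin 4) :
    nv i r s j * ns i k + ns i j * nv i r s k - (av i r j * bv i s k + bv i s j * av i r k)
      = if j = k then 2 else 0 := by
  fin_cases j <;> fin_cases k <;> simp [nv, av, bv, ns] <;>
    first
    | ring1
    | linear_combination (-2 : F) * hi

/-- the parameters: lambda, s, r and an, ab, kappa, theta, cn, cb -/
abbrev Par (F : Type*) := (F × F × F) × (F × F × F × F × F × F)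

/-- alpha -/
def al (i nu : F) (p : F × F × F) (j : Fin 4) : F := p.1 * av i p.2.2 j + nu / p.1 * bv i p.2.1 j
/-- beta -/
def be (i nu : F) (p : F × F × F) (j : Fin 4) : F := p.1 * av i p.2.2 j - nu / p.1 * bv i p.2.1 j
/-- n -/
def nn (i : F) (p : F × F × F) (j : Fin 4) : F := nv i p.2.2 p.2.1 j

/-- first coordinate -/
def ca (i nu : F) (t : Par F) (j : Fin 4) : F := t.2.1 * nn i t.1 j + t.2.2.1 * be i nu t.1 j
/-- second coordinate -/
def cb (i nu : F) (t : Par F) (j : Fin 4) : F :=
  t.2.2.2.1 * ca i nu t j + t.2.2.2.2.1 * nn i t.1 j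
/-- third coordinate -/
def cc (i nu : F) (t : Par F) (j : Fin 4) : F :=
  al i nu t.1 j + t.2.2.2.2.2.1 * nn i t.1 j + t.2.2.2.2.2.2 * be i nu t.1 j

/-- the four vertices -/
def vert (i nu : F) (t : Par F) (j : Fin 4) : F × F × F := (ca i nu t j, cb i nu t j, cc i nu t j)

lemma base_id2 {i : F} (hi : i * i = -1) (nu : F) (p : F × F × F) (hp : p.1 ≠ 0) (j k : Fin 4) :
    -2 * nu * (nn i p j * ns i k + ns i j * nn i p k) + al i nu p j * al i nu p k
      - be i nu p j * be i nu p k = if j = k then -4 * nu else 0 := by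
  have h := base_id hi p.2.2 p.2.1 j k
  have hl : p.1 * (nu / p.1) = nu := by field_simp
  unfold nn al be
  generalize nu / p.1 = mu at hl
  split_ifs at h ⊢
  · linear_combination (-2 * nu) * h +
      2 * (av i p.2.2 j * bv i p.2.1 k + bv i p.2.1 j * av i p.2.2 k) * hl
  · linear_combination (-2 * nu) * h +
      2 * (av i p.2.2 j * bv i p.2.1 k + bv i p.2.1 j * av i p.2.2 k) * hl

lemma exists_frame (h2 : (2 : F) ≠ 0) {i : F} (hi : i * i = -1) (nu : F) (t : Par F)
    (hp : t.1.1 ≠ 0) (hab : t.2.2.1 ≠ 0) (hth : t.2.2.2.2.1 ≠ 0) :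
    ∃ x : Fin 4 → Fin 5 → F, (∀ j, proj (x j) = vert i nu t j) ∧
      ∀ j k, bil (x j) (x k) = if j = k then -4 * nu else 0 := by
  obtain ⟨p, an, ab, ka, th, cn, cb'⟩ := t
  simp only at hp hab hth
  let m : Fin 4 → F := fun j => al i nu p j + (cn * nn i p j + cb' * be i nu p j) / 2
  let E1 : Fin 4 → F := fun j => -2 * nu * ns i j - cn * m j
  let F1 : Fin 4 → F := fun j => - be i nu p j / 2 - cb' * m j
  let G : Fin 4 → F := fun j => E1 j - an / ab * F1 j
  let t : Par F := (p, an, ab, ka, th, cn, cb')
  refine ⟨fun j => ![F1 j / ab - ka * (G j / th), G j / th, ca i nu t j, cb i nu t j, cc i nu t j],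
    fun j => by simp [proj, vert, t], fun j k => ?_⟩
  rw [← base_id2 hi nu p hp j k]
  have stepA : ∀ j k, (F1 j / ab - ka * (G j / th)) * ca i nu t k + G j / th * cb i nu t k
      = E1 j * nn i p k + F1 j * be i nu p k := by
    intro j k
    simp only [ca, cb, t, G]
    field_simp
    ring
  have A1 := stepA j k
  have A2 := stepA k j
  have stepB : E1 j * nn i p k + F1 j * be i nu p k + (E1 k * nn i p j + F1 k * be i nu p j)
      + cc i nu t j * cc i nu t k =
      -2 * nu * (nn i p j * ns i k + ns i j * nn i p k) + al i nu p j * al i nu p k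
      - be i nu p j * be i nu p k := by
    simp only [cc, t, E1, F1, m]
    field_simp
    ring
  simp only [bil]
  simp only [Matrix.cons_val_zero, Matrix.cons_val_one, Matrix.cons_val]
  linear_combination A1 + A2 + stepB

/-- The non-degeneracy condition on the first three parameters. -/
def Nondeg (i nu : F) (p : F × F × F) : Prop :=
  ∀ j k : Fin 4, j ≠ k → nn i p j * be i nu p k - nn i p k * be i nu p j ≠ 0

lemma om_vert (i nu : F) (t : Par F) (j k : Fin 4) :
    om (vert i nu t j) (vert i nu t k) =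
      -(t.2.2.2.2.1 * t.2.2.1) *
        (nn i t.1 j * be i nu t.1 k - nn i t.1 k * be i nu t.1 j) := by
  simp only [om, vert, ca, cb]
  ring

lemma good_vert (h2 : (2 : F) ≠ 0) {i : F} (hi : i * i = -1) (nu : F) (t : Par F)
    (hp : t.1.1 ≠ 0) (hnd : Nondeg i nu t.1) (hab : t.2.2.1 ≠ 0) (hth : t.2.2.2.2.1 ≠ 0)
    {H : Set (F × F × F)} (hH : ∀ v, v ∈ H ∨ -v ∈ H) :
    Good (-4 * nu) H (Finset.univ.image (fun j => rep H (vert i nu t j))) := by
  obtain ⟨x, hx1, hx2⟩ := exists_frame h2 hi nu t hp hab hth
  have := good_of_frame (e := -4 * nu) hH x (fun j => by rw [hx2]; simp) (fun j k hjk => by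
    refine ⟨by rw [hx2]; simp [hjk], ?_⟩
    rw [hx1, hx1, om_vert]
    exact mul_ne_zero (neg_ne_zero.mpr (mul_ne_zero hth hab)) (hnd j k hjk))
  simpa only [hx1] using this

lemma nondeg_of {i : F} (h2 : (2 : F) ≠ 0) (hi : i * i = -1) (nu : F) (l s r : F)
    (c1 : l ^ 2 * r ^ 2 + -((nu / l) ^ 2 * s ^ 2) ≠ 0)
    (c2 : l * r ^ 2 + (l + nu / l * (1 + s ^ 2)) ≠ 0)
    (c3 : l * r ^ 2 + (l - nu / l * (1 + s ^ 2)) ≠ 0)
    (c4 : l * r ^ 2 + (-l + nu / l * (1 - s ^ 2)) ≠ 0)
    (c5 : l * r ^ 2 + (-l - nu / l * (1 - s ^ 2)) ≠ 0) :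
    Nondeg i nu (l, s, r) := by
  have hi0 : i ≠ 0 := by
    rintro rfl
    simp at hi
  generalize hmu : nu / l = mu at c1 c2 c3 c4 c5
  have c1a : l * r - mu * s ≠ 0 := by
    intro h; apply c1; linear_combination (l * r + mu * s) * h
  have c1b : l * r + mu * s ≠ 0 := by
    intro h; apply c1; linear_combination (l * r - mu * s) * h
  have p01 : nn i (l, s, r) 0 * be i nu (l, s, r) 1 - nn i (l, s, r) 1 * be i nu (l, s, r) 0
      = 2 * i * (l * r - mu * s) := by
    simp [nn, be, nv, av, bv, hmu]; ring
  have p02 : nn i (l, s, r) 0 * be i nu (l, s, r) 2 - nn i (l, s, r) 2 * be i nu (l, s, r) 0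
      = l * r ^ 2 + (l + mu * (1 + s ^ 2)) := by
    simp [nn, be, nv, av, bv, hmu]; ring
  have p03 : nn i (l, s, r) 0 * be i nu (l, s, r) 3 - nn i (l, s, r) 3 * be i nu (l, s, r) 0
      = i * (l * r ^ 2 + (-l + mu * (1 - s ^ 2))) := by
    simp [nn, be, nv, av, bv, hmu]; ring
  have p12 : nn i (l, s, r) 1 * be i nu (l, s, r) 2 - nn i (l, s, r) 2 * be i nu (l, s, r) 1
      = i * (l * r ^ 2 + (-l - mu * (1 - s ^ 2))) := by
    simp [nn, be, nv, av, bv, hmu]; ring
  have p13 : nn i (l, s, r) 1 * be i nu (l, s, r) 3 - nn i (l, s, r) 3 * be i nu (l, s, r) 1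
      = - (l * r ^ 2 + (l - mu * (1 + s ^ 2))) := by
    simp [nn, be, nv, av, bv, hmu]
    linear_combination (l * r ^ 2 + (l - mu * (1 + s ^ 2))) * hi
  have p23 : nn i (l, s, r) 2 * be i nu (l, s, r) 3 - nn i (l, s, r) 3 * be i nu (l, s, r) 2
      = 2 * i * (l * r + mu * s) := by
    simp [nn, be, nv, av, bv, hmu]; ring
  have q01 := mul_ne_zero (mul_ne_zero h2 hi0) c1a
  have q03 := mul_ne_zero hi0 c4
  have q12 := mul_ne_zero hi0 c5
  have q13 := neg_ne_zero.mpr c3
  have q23 := mul_ne_zero (mul_ne_zero h2 hi0) c1b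
  rw [← p01] at q01
  rw [← p02] at c2
  rw [← p03] at q03
  rw [← p12] at q12
  rw [← p13] at q13
  rw [← p23] at q23
  have sw : ∀ j k : Fin 4, nn i (l, s, r) j * be i nu (l, s, r) k
      - nn i (l, s, r) k * be i nu (l, s, r) j ≠ 0 →
      nn i (l, s, r) k * be i nu (l, s, r) j - nn i (l, s, r) j * be i nu (l, s, r) k ≠ 0 := by
    intro j k h h'
    apply h
    linear_combination -h'
  intro j k hjk
  fin_cases j <;> fin_cases k <;>
    first
    | exact absurd rfl hjk
    | assumption
    | exact sw _ _ (by assumption)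

lemma vert_inj (h2 : (2 : F) ≠ 0) {i : F} (hi : i * i = -1) {nu : F} (hnu : nu ≠ 0)
    {t t' : Par F} (hp : t.1.1 ≠ 0) (hp' : t'.1.1 ≠ 0) (hab : t.2.2.1 ≠ 0)
    (hth : t.2.2.2.2.1 ≠ 0) (h : vert i nu t = vert i nu t')
    (hs : t.2.2.1 ^ 2 = t'.2.2.1 ^ 2 → t.2.2.1 = t'.2.2.1) : t = t' := by
  obtain ⟨⟨l, s, r⟩, an, ab, ka, th, cn, cb'⟩ := t
  obtain ⟨⟨l', s', r'⟩, an', ab', ka', th', cn', cb''⟩ := t'
  simp only at hp hp' hab hth hs
  have hl : l * (nu / l) = nu := by field_simp
  have hl' : l' * (nu / l') = nu := by field_simp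
  have e0 := congrFun h 0
  have e1 := congrFun h 1
  have e2 := congrFun h 2
  have e3 := congrFun h 3
  simp only [vert, ca, cb, cc, al, be, nn, nv, av, bv, Prod.mk.injEq, Matrix.cons_val_zero,
    Matrix.cons_val_one, Matrix.cons_val] at e0 e1 e2 e3
  generalize nu / l = mu at *
  generalize nu / l' = mu' at *
  obtain ⟨a0, b0, c0⟩ := e0
  obtain ⟨a1, b1, c1⟩ := e1
  obtain ⟨a2, b2, c2⟩ := e2
  obtain ⟨a3, b3, c3⟩ := e3
  have cancel : ∀ x y : F, 2 * x = 2 * y → x = y := fun x y hxy => mul_left_cancel₀ h2 hxy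
  -- matrix coordinates of a
  have A11 : an = an' := cancel _ _ (by
    linear_combination a0 + i * a1 + (an * (1 - r * s) - ab * (l * r - mu * s)
      - an' * (1 - r' * s') + ab' * (l' * r' - mu' * s')) * hi)
  have A12 : an * s + ab * l = an' * s' + ab' * l' := cancel _ _ (by
    linear_combination a2 + i * a3 + (an * (s + r) + ab * (l - mu)
      - an' * (s' + r') - ab' * (l' - mu')) * hi)
  have A21 : an * r - ab * mu = an' * r' - ab' * mu' := cancel _ _ (by
    linear_combination -a2 + i * a3 + (an * (s + r) + ab * (l - mu)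
      - an' * (s' + r') - ab' * (l' - mu')) * hi)
  have A22 : an * (r * s) + ab * (l * r - mu * s) = an' * (r' * s') + ab' * (l' * r' - mu' * s') :=
    cancel _ _ (by
    linear_combination a0 - i * a1 - (an * (1 - r * s) - ab * (l * r - mu * s)
      - an' * (1 - r' * s') + ab' * (l' * r' - mu' * s')) * hi)
  have hab2 : ab ^ 2 = ab' ^ 2 := by
    apply mul_left_cancel₀ hnu
    linear_combination (an * (r * s) + ab * (l * r - mu * s)) * A11 + an' * A22
      - (an * r - ab * mu) * A12 - (an' * s' + ab' * l') * A21 - ab ^ 2 * hl + ab' ^ 2 * hl'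
  have habe : ab = ab' := hs hab2
  subst habe
  subst A11
  -- b minus kappa times a is theta times n
  have n0 : (ka - ka') * (an * (1 + r * s) + ab * (l * r - mu * s)) + th * (1 + r * s)
      = th' * (1 + r' * s') := by linear_combination b0 - ka' * a0
  have n1 : (ka - ka') * (an * (-i * (1 - r * s)) + ab * (l * (i * r) - mu * (i * s)))
      + th * (-i * (1 - r * s)) = th' * (-i * (1 - r' * s')) := by
    linear_combination b1 - ka' * a1
  have n2 : (ka - ka') * (an * (s - r) + ab * (l * 1 - mu * (-1))) + th * (s - r)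
      = th' * (s' - r') := by linear_combination b2 - ka' * a2
  have n3 : (ka - ka') * (an * (-i * (s + r)) + ab * (l * (-i) - mu * (-i)))
      + th * (-i * (s + r)) = th' * (-i * (s' + r')) := by
    linear_combination b3 - ka' * a3
  have N11 : (ka - ka') * an + th = th' := cancel _ _ (by
    linear_combination n0 + i * n1 + ((ka - ka') * (an * (1 - r * s) - ab * (l * r - mu * s))
      + th * (1 - r * s) - th' * (1 - r' * s')) * hi)
  have N12 : (ka - ka') * (an * s + ab * l) + th * s = th' * s' := cancel _ _ (by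
    linear_combination n2 + i * n3 + ((ka - ka') * (an * (s + r) + ab * (l - mu))
      + th * (s + r) - th' * (s' + r')) * hi)
  have N21 : (ka - ka') * (an * r - ab * mu) + th * r = th' * r' := cancel _ _ (by
    linear_combination -n2 + i * n3 + ((ka - ka') * (an * (s + r) + ab * (l - mu))
      + th * (s + r) - th' * (s' + r')) * hi)
  have N22 : (ka - ka') * (an * (r * s) + ab * (l * r - mu * s)) + th * (r * s)
      = th' * (r' * s') := cancel _ _ (by
    linear_combination n0 - i * n1 - ((ka - ka') * (an * (1 - r * s) - ab * (l * r - mu * s))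
      + th * (1 - r * s) - th' * (1 - r' * s')) * hi)
  have hka : ka = ka' := by
    have h0 : (ka - ka') ^ 2 * (ab ^ 2 * nu) = 0 := by
      linear_combination ((ka - ka') * (an * (r * s) + ab * (l * r - mu * s)) + th * (r * s)) * N11
        + th' * N22 - ((ka - ka') * (an * r - ab * mu) + th * r) * N12 - th' * s' * N21
        - (ka - ka') ^ 2 * ab ^ 2 * hl
    have h1 := (mul_eq_zero.mp h0).resolve_right (mul_ne_zero (pow_ne_zero 2 hab) hnu)
    exact sub_eq_zero.mp (pow_eq_zero_iff (two_ne_zero) |>.mp h1)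
  subst hka
  have hth' : th = th' := by linear_combination N11
  subst hth'
  have hs' : s = s' := mul_left_cancel₀ hth (by linear_combination N12)
  have hr' : r = r' := mul_left_cancel₀ hth (by linear_combination N21)
  subst hs'
  subst hr'
  have hl2 : l = l' := mul_left_cancel₀ hab (by linear_combination A12)
  subst hl2
  have hmu : mu = mu' := mul_left_cancel₀ hp (by linear_combination hl - hl')
  subst hmu
  have hcn : cn = cn' := cancel _ _ (by
    linear_combination c0 + i * c1 + ((cn - cn') * (1 - r * s)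
      - (cb' - cb'') * (l * r - mu * s)) * hi)
  subst hcn
  have hcb : cb' = cb'' := mul_left_cancel₀ hp (cancel _ _ (by
    linear_combination c2 + i * c3 + ((cb' - cb'') * (l - mu)) * hi))
  subst hcb
  rfl

lemma card_quad [Fintype F] {A : F} (hA : A ≠ 0) (D : F) :
    (Finset.univ.filter (fun r : F => A * r ^ 2 + D = 0)).card ≤ 2 := by
  by_cases h : ∃ r0 : F, A * r0 ^ 2 + D = 0
  · obtain ⟨r0, h0⟩ := h
    have : Finset.univ.filter (fun r : F => A * r ^ 2 + D = 0) ⊆ {r0, -r0} := by
      intro r hr
      simp only [Finset.mem_filter, Finset.mem_univ, true_and] at hr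
      have h1 : A * ((r - r0) * (r + r0)) = 0 := by linear_combination hr - h0
      rcases mul_eq_zero.mp ((mul_eq_zero.mp h1).resolve_left hA) with h2 | h2
      · simp [sub_eq_zero.mp h2]
      · simp [eq_neg_of_add_eq_zero_left h2]
    exact (Finset.card_le_card this).trans Finset.card_le_two
  · rw [Finset.filter_eq_empty_iff.mpr]
    · simp
    · intro r _ hr
      exact h ⟨r, hr⟩

lemma card_nondeg [Fintype F] (h2 : (2 : F) ≠ 0) {i : F} (hi : i * i = -1) (nu : F) {l : F}
    (hl : l ≠ 0) (s : F) :
    Fintype.card F ≤ (Finset.univ.filter (fun r : F => Nondeg i nu (l, s, r))).card + 10 := by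
  have hsub : (Finset.univ : Finset F) ⊆
      Finset.univ.filter (fun r : F => Nondeg i nu (l, s, r)) ∪
      (Finset.univ.filter (fun r : F => l ^ 2 * r ^ 2 + -((nu / l) ^ 2 * s ^ 2) = 0) ∪
      (Finset.univ.filter (fun r : F => l * r ^ 2 + (l + nu / l * (1 + s ^ 2)) = 0) ∪
      (Finset.univ.filter (fun r : F => l * r ^ 2 + (l - nu / l * (1 + s ^ 2)) = 0) ∪
      (Finset.univ.filter (fun r : F => l * r ^ 2 + (-l + nu / l * (1 - s ^ 2)) = 0) ∪
      Finset.univ.filter (fun r : F => l * r ^ 2 + (-l - nu / l * (1 - s ^ 2)) = 0))))) := by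
    intro r _
    simp only [Finset.mem_union, Finset.mem_filter, Finset.mem_univ, true_and]
    by_contra hc
    push Not at hc
    obtain ⟨h0, c1, c2, c3, c4, c5⟩ := hc
    exact h0 (nondeg_of h2 hi nu l s r c1 c2 c3 c4 c5)
  have h1 := card_quad (pow_ne_zero 2 hl) (-((nu / l) ^ 2 * s ^ 2))
  have h2 := card_quad hl (l + nu / l * (1 + s ^ 2))
  have h3 := card_quad hl (l - nu / l * (1 + s ^ 2))
  have h4 := card_quad hl (-l + nu / l * (1 - s ^ 2))
  have h5 := card_quad hl (-l - nu / l * (1 - s ^ 2))
  have := Finset.card_le_card hsub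
  rw [Finset.card_univ] at this
  refine this.trans ((Finset.card_union_le _ _).trans (Nat.add_le_add_left ?_ _))
  refine (Finset.card_union_le _ _).trans ?_
  refine (Nat.add_le_add h1 ((Finset.card_union_le _ _).trans (Nat.add_le_add h2
    ((Finset.card_union_le _ _).trans (Nat.add_le_add h3
    ((Finset.card_union_le _ _).trans (Nat.add_le_add h4 h5))))))).trans (by norm_num)

/-- admissible first parameters -/
noncomputable def T0 [Fintype F] (i nu : F) : Finset (F × F × F) :=
  Finset.univ.filter (fun p => p.1 ≠ 0 ∧ Nondeg i nu p)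

/-- admissible second parameters -/
noncomputable def T1 (F : Type*) [Field F] [Fintype F] : Finset (F × F × F × F × F × F) :=
  Finset.univ ×ˢ (Finset.univ.erase 0) ×ˢ Finset.univ ×ˢ (Finset.univ.erase 0) ×ˢ
    Finset.univ ×ˢ Finset.univ

lemma card_T1 [Fintype F] : (T1 F).card = Fintype.card F ^ 4 * (Fintype.card F - 1) ^ 2 := by
  simp [T1, Finset.card_product, Finset.card_erase_of_mem]
  ring

lemma card_T0 [Fintype F] (h2 : (2 : F) ≠ 0) {i : F} (hi : i * i = -1) (nu : F) :
    (Fintype.card F - 1) * Fintype.card F * (Fintype.card F - 10) ≤ (T0 i nu).card := by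
  have hmaps : ∀ p ∈ T0 i nu, (p.1, p.2.1) ∈ ((Finset.univ.erase (0 : F)) ×ˢ
      (Finset.univ : Finset F)) := by
    intro p hp
    simp only [T0, Finset.mem_filter, Finset.mem_univ, true_and] at hp
    simp [hp.1]
  rw [Finset.card_eq_sum_card_fiberwise hmaps]
  have hc : ((Finset.univ.erase (0 : F)) ×ˢ (Finset.univ : Finset F)).card
      = (Fintype.card F - 1) * Fintype.card F := by
    simp [Finset.card_product, Finset.card_erase_of_mem]
  rw [← hc, ← smul_eq_mul]
  apply Finset.card_nsmul_le_sum
  rintro ⟨l, s⟩ hls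
  have hl : l ≠ 0 := by simpa using hls
  have h1 := card_nondeg h2 hi nu hl s
  have h3 : (Finset.univ.filter (fun r : F => Nondeg i nu (l, s, r))).card ≤
      ((T0 i nu).filter (fun p => (p.1, p.2.1) = (l, s))).card := by
    apply Finset.card_le_card_of_injOn (fun r => (l, s, r))
    · intro r hr
      simp only [Finset.coe_filter, Finset.mem_univ, true_and, Set.mem_ofPred_eq] at hr
      simp [T0, hl, hr]
    · intro r _ r' _ h
      simpa using h
  omega

theorem many_good [Fintype F] (h2 : (2 : F) ≠ 0) {i : F} (hi : i * i = -1) {nu : F}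
    (hnu : nu ≠ 0) {H : Set (F × F × F)} (hH : ∀ v, v ∈ H ∨ -v ∈ H) :
    (Fintype.card F - 1) * Fintype.card F * (Fintype.card F - 10) *
      (Fintype.card F ^ 4 * (Fintype.card F - 1) ^ 2) ≤
      8192 * (Finset.univ.filter (fun S : Finset (F × F × F) => Good (-4 * nu) H S)).card := by
  let enc : F → ℕ := fun x => (Fintype.equivFin F x : ℕ)
  have henc : Function.Injective enc := fun x y h =>
    (Fintype.equivFin F).injective (Fin.ext h)
  let sg : F → Bool := fun x => decide (enc x ≤ enc (-x))
  have hsg : ∀ x y : F, sg x = sg y → x ^ 2 = y ^ 2 → x = y := by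
    intro x y h hxy
    have h1 : (x - y) * (x + y) = 0 := by linear_combination hxy
    rcases mul_eq_zero.mp h1 with h3 | h3
    · exact sub_eq_zero.mp h3
    · have hy : y = -x := by linear_combination h3
      subst hy
      simp only [sg, neg_neg, decide_eq_decide] at h
      apply henc
      omega
  calc _ ≤ (T0 i nu).card * (T1 F).card := by
        rw [card_T1]; exact Nat.mul_le_mul_right _ (card_T0 h2 hi nu)
    _ = (T0 i nu ×ˢ T1 F).card := (Finset.card_product _ _).symm
    _ ≤ _ := by
      have hmem : ∀ t ∈ T0 i nu ×ˢ T1 F, t.1.1 ≠ 0 ∧ Nondeg i nu t.1 ∧ t.2.2.1 ≠ 0 ∧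
          t.2.2.2.2.1 ≠ 0 := by
        intro t ht
        simp only [T0, T1, Finset.mem_product, Finset.mem_filter, Finset.mem_univ, true_and,
          Finset.mem_erase, and_true] at ht
        exact ⟨ht.1.1, ht.1.2, ht.2.1, ht.2.2⟩
      apply Finset.card_le_mul_card_image_of_maps_to
        (f := fun t : Par F => Finset.univ.image (fun j => rep H (vert i nu t j)))
      · intro t ht
        obtain ⟨a, b, c, d⟩ := hmem t ht
        simp only [Finset.mem_filter, Finset.mem_univ, true_and]
        exact good_vert h2 hi nu t a b c d hH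
      · intro S _
        by_cases hne : ((T0 i nu ×ˢ T1 F).filter (fun t : Par F =>
            Finset.univ.image (fun j => rep H (vert i nu t j)) = S)) = ∅
        · rw [hne]; simp
        obtain ⟨t0, ht0⟩ := Finset.nonempty_iff_ne_empty.mpr hne
        have hS4 : S.card ≤ 4 := by
          rw [← (Finset.mem_filter.mp ht0).2]
          exact Finset.card_image_le.trans (by simp)
        have hU : (S ∪ S.image (fun v => -v)).card ≤ 8 :=
          (Finset.card_union_le _ _).trans
            ((Nat.add_le_add hS4 (Finset.card_image_le.trans hS4)).trans (by norm_num))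
        calc _ ≤ ((Fintype.piFinset (fun _ : Fin 4 => S ∪ S.image (fun v => -v))) ×ˢ
              (Finset.univ : Finset Bool)).card := by
              apply Finset.card_le_card_of_injOn (fun t => (vert i nu t, sg t.2.2.1))
              · intro t ht
                have ht2 := (Finset.mem_filter.mp ht).2
                simp only [Finset.coe_product, Set.mem_prod, Finset.mem_coe,
                  Fintype.mem_piFinset, Finset.mem_univ, and_true]
                intro j
                have hj : rep H (vert i nu t j) ∈ S := by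
                  rw [← ht2]; exact Finset.mem_image_of_mem _ (Finset.mem_univ j)
                unfold rep at hj
                split_ifs at hj
                · exact Finset.mem_union_left _ hj
                · exact Finset.mem_union_right _
                    (Finset.mem_image.mpr ⟨_, hj, neg_neg _⟩)
              · intro t ht t' ht' h
                obtain ⟨a, -, c, d⟩ := hmem t (Finset.mem_filter.mp ht).1
                obtain ⟨a', -, -, -⟩ := hmem t' (Finset.mem_filter.mp ht').1
                simp only [Prod.mk.injEq] at h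
                exact vert_inj h2 hi hnu a a' c d h.1 (hsg _ _ h.2)
          _ ≤ 8192 := by
              rw [Finset.card_product, Fintype.card_piFinset]
              simp only [Finset.prod_const, Finset.card_univ, Fintype.card_fin,
                Fintype.card_bool]
              calc _ ≤ 8 ^ 4 * 2 := Nat.mul_le_mul_right _ (Nat.pow_le_pow_left hU 4)
                _ = 8192 := by norm_num

end Pool.Agent.Lib.MP_be95e3_co
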