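import Mathlib

/-!
Orthogonal frames in a five-dimensional quadratic space, modulo a long root subgroup.
The main output is `no_octahedron`: the 3-shadow of the family of good sets has no octahedron.
-/

set_option autoImplicit false

namespace Pool.Agent.Lib.MP_be95e3_co

open Matrix

variable {F : Type*} [Field F]

/-- The symmetric bilinear form on `F^5`. -/
def bil (x y : Fin 5 → F) : F :=
  x 0 * y 2 + x 2 * y 0 + x 1 * y 3 + x 3 * y 1 + x 4 * y 4

/-- Projection to the last three coordinates. -/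
def proj (x : Fin 5 → F) : F × F × F := (x 2, x 3, x 4)

/-- The alternating form on the vertex set. -/
def om (v w : F × F × F) : F := v.1 * w.2.1 - w.1 * v.2.1

/-- The root subgroup action. -/
def shift (t : F) (x : Fin 5 → F) : Fin 5 → F := ![x 0 - t * x 3, x 1 + t * x 2, x 2, x 3, x 4]

lemma bil_comm (x y : Fin 5 → F) : bil x y = bil y x := by
  unfold bil; ring

lemma proj_shift (t : F) (x : Fin 5 → F) : proj (shift t x) = proj x := by
  simp [proj, shift]

lemma bil_shift (t s : F) (x y : Fin 5 → F) :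
    bil (shift t x) (shift s y) = bil x y + (t - s) * om (proj x) (proj y) := by
  simp [bil, shift, om, proj]; ring

lemma om_self (v : F × F × F) : om v v = 0 := by
  unfold om; ring

lemma bil_shift_self (t : F) (x : Fin 5 → F) : bil (shift t x) (shift t x) = bil x x := by
  rw [bil_shift]; ring

lemma exists_shift (h2 : (2 : F) ≠ 0) {x y : Fin 5 → F} (hp : proj y = proj x)
    (hn : bil y y = bil x x) (w : F × F × F) (hw : om (proj x) w ≠ 0) :
    ∃ t, y = shift t x := by
  simp only [proj, Prod.mk.injEq] at hp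
  obtain ⟨h2', h3, h4⟩ := hp
  have key : (y 0 - x 0) * x 2 + (y 1 - x 1) * x 3 = 0 := by
    unfold bil at hn
    rw [h2', h3, h4] at hn
    have : 2 * ((y 0 - x 0) * x 2 + (y 1 - x 1) * x 3) = 0 := by linear_combination hn
    exact (mul_eq_zero.mp this).resolve_left h2
  by_cases ha : x 2 = 0
  · have hb : x 3 ≠ 0 := by
      intro hb
      apply hw
      simp [om, proj, ha, hb]
    refine ⟨(x 0 - y 0) / x 3, ?_⟩
    have h1 : y 1 = x 1 := by
      rw [ha] at key
      have : (y 1 - x 1) * x 3 = 0 := by linear_combination key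
      exact sub_eq_zero.mp ((mul_eq_zero.mp this).resolve_right hb)
    funext i
    fin_cases i
    · simp [shift]; field_simp; ring
    · simp [shift, ha, h1]
    · simp [shift, h2']
    · simp [shift, h3]
    · simp [shift, h4]
  · refine ⟨(y 1 - x 1) / x 2, ?_⟩
    funext i
    fin_cases i
    · simp [shift]; field_simp; linear_combination key
    · simp [shift]; field_simp; ring
    · simp [shift, h2']
    · simp [shift, h3]
    · simp [shift, h4]

/-- The Gram matrix of the form. -/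
def gramJ : Matrix (Fin 5) (Fin 5) F :=
  !![0, 0, 1, 0, 0; 0, 0, 0, 1, 0; 1, 0, 0, 0, 0; 0, 1, 0, 0, 0; 0, 0, 0, 0, 1]

lemma det_gramJ : (gramJ : Matrix (Fin 5) (Fin 5) F).det = 1 := by
  simp [gramJ, Matrix.det_succ_row_zero, Fin.sum_univ_succ, Fin.succAbove]

lemma gram_eq (P : Matrix (Fin 5) (Fin 5) F) (i j : Fin 5) :
    (P * (gramJ : Matrix (Fin 5) (Fin 5) F) * Pᵀ : Matrix (Fin 5) (Fin 5) F) i j
      = bil (P i) (P j) := by
  simp [gramJ, Matrix.mul_apply, Fin.sum_univ_succ, bil]; ring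

lemma det_special (e p q r n : F) :
    (!![e, 0, 0, 0, p; 0, e, 0, 0, q; 0, 0, e, 0, r; 0, 0, 0, 0, 1; p, q, r, 1, n] :
      Matrix (Fin 5) (Fin 5) F).det = - e ^ 3 := by
  simp [Matrix.det_succ_row_zero, Fin.sum_univ_succ, Fin.succAbove]; ring

lemma aniso {e : F} (he : ¬ IsSquare (-e)) {x y z u : Fin 5 → F}
    (hx : bil x x = e) (hy : bil y y = e) (hz : bil z z = e)
    (hxy : bil x y = 0) (hxz : bil x z = 0) (hyz : bil y z = 0)
    (hxu : bil x u = 0) (hyu : bil y u = 0) (hzu : bil z u = 0) (huu : bil u u = 0) :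
    u = 0 := by
  by_contra hu
  have he0 : e ≠ 0 := by
    rintro rfl
    exact he ⟨0, by simp⟩
  obtain ⟨w, hw⟩ : ∃ w : Fin 5 → F, bil u w = 1 := by
    obtain ⟨k, hk⟩ := Function.ne_iff.mp hu
    have hk' : u k ≠ 0 := hk
    fin_cases k
    · exact ⟨![0, 0, (u 0)⁻¹, 0, 0], by simp [bil]; exact mul_inv_cancel₀ hk'⟩
    · exact ⟨![0, 0, 0, (u 1)⁻¹, 0], by simp [bil]; exact mul_inv_cancel₀ hk'⟩
    · exact ⟨![(u 2)⁻¹, 0, 0, 0, 0], by simp [bil]; exact mul_inv_cancel₀ hk'⟩
    · exact ⟨![0, (u 3)⁻¹, 0, 0, 0], by simp [bil]; exact mul_inv_cancel₀ hk'⟩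
    · exact ⟨![0, 0, 0, 0, (u 4)⁻¹], by simp [bil]; exact mul_inv_cancel₀ hk'⟩
  let P : Matrix (Fin 5) (Fin 5) F := Matrix.of ![x, y, z, u, w]
  have hG : P * (gramJ : Matrix (Fin 5) (Fin 5) F) * Pᵀ =
      !![e, 0, 0, 0, bil x w; 0, e, 0, 0, bil y w; 0, 0, e, 0, bil z w; 0, 0, 0, 0, 1;
        bil x w, bil y w, bil z w, 1, bil w w] := by
    have hyx := (bil_comm y x).trans hxy
    have hzx := (bil_comm z x).trans hxz
    have hzy := (bil_comm z y).trans hyz
    have hux := (bil_comm u x).trans hxu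
    have huy := (bil_comm u y).trans hyu
    have huz := (bil_comm u z).trans hzu
    have hwu := (bil_comm w u).trans hw
    have hwx := bil_comm w x
    have hwy := bil_comm w y
    have hwz := bil_comm w z
    have hP : ∀ i, P i = ![x, y, z, u, w] i := fun _ => rfl
    ext i j
    rw [gram_eq, hP, hP]
    clear hP
    fin_cases i <;> fin_cases j <;> simp [*]
  have hd := congrArg Matrix.det hG
  rw [det_special, Matrix.det_mul, Matrix.det_mul, det_gramJ, Matrix.det_transpose] at hd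
  apply he
  refine ⟨P.det / e, ?_⟩
  field_simp
  linear_combination -hd

lemma bil_lin_right (x a b : Fin 5 → F) (s t : F) :
    bil x (s • a + t • b) = s * bil x a + t * bil x b := by
  simp [bil]; ring

lemma pm_of_rel {e : F} (he0 : e ≠ 0) {x y : Fin 5 → F} (hx : bil x x = e) (hy : bil y y = e)
    {s t : F} (hst : s ≠ 0 ∨ t ≠ 0) (h : s • x + t • y = 0) : y = x ∨ y = -x := by
  have hx0 : x ≠ 0 := by
    rintro rfl
    apply he0
    rw [← hx]; simp [bil]
  have ht : t ≠ 0 := by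
    rintro rfl
    have hs : s ≠ 0 := by simpa using hst
    simp only [zero_smul, add_zero, smul_eq_zero] at h
    rcases h with h | h
    · exact hs h
    · exact hx0 h
  have hy' : y = (-s / t) • x := by
    funext i
    have := congrFun h i
    simp only [Pi.add_apply, Pi.smul_apply, smul_eq_mul, Pi.zero_apply] at this ⊢
    field_simp
    linear_combination this
  generalize (-s / t) = c at hy'
  have hsq : c ^ 2 * e = e := by
    rw [hy'] at hy
    simp only [bil, Pi.smul_apply, smul_eq_mul] at hy hx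
    linear_combination hy - c ^ 2 * hx
  have h1 : (c - 1) * (c + 1) * e = 0 := by linear_combination hsq
  rcases mul_eq_zero.mp ((mul_eq_zero.mp h1).resolve_right he0) with h1 | h1
  · left
    have : c = 1 := by linear_combination h1
    rw [hy', this, one_smul]
  · right
    have : c = -1 := by linear_combination h1
    rw [hy', this, neg_one_smul]

lemma octa {e : F} (he : ¬ IsSquare (-e)) {x0 x1 y0 y1 z0 z1 : Fin 5 → F}
    (hx0 : bil x0 x0 = e) (hx1 : bil x1 x1 = e) (hy0 : bil y0 y0 = e) (hy1 : bil y1 y1 = e)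
    (hz0 : bil z0 z0 = e) (hz1 : bil z1 z1 = e)
    (a00 : bil x0 y0 = 0) (a01 : bil x0 y1 = 0) (a10 : bil x1 y0 = 0) (a11 : bil x1 y1 = 0)
    (b00 : bil x0 z0 = 0) (b01 : bil x0 z1 = 0) (b10 : bil x1 z0 = 0) (b11 : bil x1 z1 = 0)
    (c00 : bil y0 z0 = 0) (c01 : bil y0 z1 = 0) (c10 : bil y1 z0 = 0) (c11 : bil y1 z1 = 0) :
    (x1 = x0 ∨ x1 = -x0) ∨ (y1 = y0 ∨ y1 = -y0) ∨ (z1 = z0 ∨ z1 = -z0) := by
  have he0 : e ≠ 0 := by
    rintro rfl
    exact he ⟨0, by simp⟩
  have hdep : ¬ LinearIndependent F ![x0, x1, y0, y1, z0, z1] := by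
    intro h
    have := h.fintype_card_le_finrank
    simp at this
  obtain ⟨g, hg, k, hk⟩ := Fintype.not_linearIndependent_iff.mp hdep
  simp only [Fin.sum_univ_succ, Matrix.cons_val_zero, Matrix.cons_val_succ, Fin.sum_univ_zero,
    add_zero] at hg
  set g0 := g 0 with hg0
  set g1 := g (Fin.succ 0) with hg1
  set g2 := g (Fin.succ (Fin.succ 0)) with hg2
  set g3 := g (Fin.succ (Fin.succ (Fin.succ 0))) with hg3
  set g4 := g (Fin.succ (Fin.succ (Fin.succ (Fin.succ 0)))) with hg4
  set g5 := g (Fin.succ (Fin.succ (Fin.succ (Fin.succ (Fin.succ 0))))) with hg5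
  have hrel : ∀ w : Fin 5 → F, g0 * bil w x0 + g1 * bil w x1 + g2 * bil w y0 + g3 * bil w y1
      + g4 * bil w z0 + g5 * bil w z1 = 0 := by
    intro w
    have h0 := congrFun hg 0
    have h1 := congrFun hg 1
    have h2 := congrFun hg 2
    have h3 := congrFun hg 3
    have h4 := congrFun hg 4
    simp only [Pi.add_apply, Pi.smul_apply, smul_eq_mul, Pi.zero_apply] at h0 h1 h2 h3 h4
    unfold bil
    linear_combination w 2 * h0 + w 3 * h1 + w 0 * h2 + w 1 * h3 + w 4 * h4
  have a00' := (bil_comm y0 x0).trans a00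
  have a01' := (bil_comm y1 x0).trans a01
  have a10' := (bil_comm y0 x1).trans a10
  have a11' := (bil_comm y1 x1).trans a11
  have b00' := (bil_comm z0 x0).trans b00
  have b01' := (bil_comm z1 x0).trans b01
  have b10' := (bil_comm z0 x1).trans b10
  have b11' := (bil_comm z1 x1).trans b11
  have c00' := (bil_comm z0 y0).trans c00
  have c01' := (bil_comm z1 y0).trans c01
  have c10' := (bil_comm z0 y1).trans c10
  have c11' := (bil_comm z1 y1).trans c11
  have rx0 := hrel x0
  have rx1 := hrel x1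
  have ry0 := hrel y0
  have ry1 := hrel y1
  have rz0 := hrel z0
  have rz1 := hrel z1
  simp only [a00, a01, a10, a11, b00, b01, b10, b11, c00, c01, c10, c11, a00', a01', a10', a11',
    b00', b01', b10', b11', c00', c01', c10', c11', mul_zero, add_zero, zero_add]
    at rx0 rx1 ry0 ry1 rz0 rz1
  have hu : g0 • x0 + g1 • x1 = 0 := by
    apply aniso he hx0 hy0 hz0 a00 b00 c00
    · rw [bil_lin_right]; exact rx0
    · rw [bil_lin_right, a00', a10']; ring
    · rw [bil_lin_right, b00', b10']; ring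
    · rw [bil_lin_right, bil_comm _ x0, bil_comm _ x1, bil_lin_right, bil_lin_right, rx0, rx1]
      ring
  have hv : g2 • y0 + g3 • y1 = 0 := by
    apply aniso he hx0 hy0 hz0 a00 b00 c00
    · rw [bil_lin_right, a00, a01]; ring
    · rw [bil_lin_right]; exact ry0
    · rw [bil_lin_right, c00', c10']; ring
    · rw [bil_lin_right, bil_comm _ y0, bil_comm _ y1, bil_lin_right, bil_lin_right, ry0, ry1]
      ring
  have hw : g4 • z0 + g5 • z1 = 0 := by
    apply aniso he hx0 hy0 hz0 a00 b00 c00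
    · rw [bil_lin_right, b00, b01]; ring
    · rw [bil_lin_right, c00, c01]; ring
    · rw [bil_lin_right]; exact rz0
    · rw [bil_lin_right, bil_comm _ z0, bil_comm _ z1, bil_lin_right, bil_lin_right, rz0, rz1]
      ring
  have hk' : (g0 ≠ 0 ∨ g1 ≠ 0) ∨ (g2 ≠ 0 ∨ g3 ≠ 0) ∨ (g4 ≠ 0 ∨ g5 ≠ 0) := by
    fin_cases k
    · exact Or.inl (Or.inl hk)
    · exact Or.inl (Or.inr hk)
    · exact Or.inr (Or.inl (Or.inl hk))
    · exact Or.inr (Or.inl (Or.inr hk))
    · exact Or.inr (Or.inr (Or.inl hk))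
    · exact Or.inr (Or.inr (Or.inr hk))
  rcases hk' with h | h | h
  · exact Or.inl (pm_of_rel he0 hx0 hx1 h hu)
  · exact Or.inr (Or.inl (pm_of_rel he0 hy0 hy1 h hv))
  · exact Or.inr (Or.inr (pm_of_rel he0 hz0 hz1 h hw))

/-- A set of vertices is good if its elements lie in `H` and have mutually orthogonal lifts of
norm `e`, with non-degenerate alternating form. -/
def Good (e : F) (H : Set (F × F × F)) (S : Finset (F × F × F)) : Prop :=
  ∃ X : F × F × F → Fin 5 → F,
    (∀ v ∈ S, v ∈ H ∧ proj (X v) = v ∧ bil (X v) (X v) = e) ∧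
    ∀ v ∈ S, ∀ w ∈ S, v ≠ w → bil (X v) (X w) = 0 ∧ om v w ≠ 0

/-- A chosen lift of a vertex. -/
noncomputable def lift (e : F) (v : F × F × F) : Fin 5 → F :=
  Classical.epsilon (fun x : Fin 5 → F => proj x = v ∧ bil x x = e)

/-- The cocycle. -/
noncomputable def phi (e : F) (v w : F × F × F) : F := bil (lift e v) (lift e w) / om v w

lemma lift_spec {e : F} {H : Set (F × F × F)} {S : Finset (F × F × F)} (hS : Good e H S)
    {v : F × F × F} (hv : v ∈ S) : proj (lift e v) = v ∧ bil (lift e v) (lift e v) = e := by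
  obtain ⟨X, h1, -⟩ := hS
  exact Classical.epsilon_spec (p := fun x : Fin 5 → F => proj x = v ∧ bil x x = e)
    ⟨X v, (h1 v hv).2⟩

lemma orth_iff {e : F} {v w : F × F × F} (hv : proj (lift e v) = v) (hw : proj (lift e w) = w)
    (h : om v w ≠ 0) (t s : F) :
    bil (shift t (lift e v)) (shift s (lift e w)) = 0 ↔ s - t = phi e v w := by
  rw [bil_shift, hv, hw, phi, eq_div_iff h]
  constructor
  · intro h'; linear_combination -h'
  · intro h'; linear_combination -h'

lemma tri (h2 : (2 : F) ≠ 0) {e : F} {H : Set (F × F × F)} {S : Finset (F × F × F)}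
    (hS : Good e H S) {a b c : F × F × F} (ha : a ∈ S) (hb : b ∈ S) (hc : c ∈ S)
    (hab : a ≠ b) (hac : a ≠ c) (hbc : b ≠ c) :
    om a b ≠ 0 ∧ om a c ≠ 0 ∧ om b c ≠ 0 ∧ phi e a b + phi e b c = phi e a c := by
  have la := lift_spec hS ha
  have lb := lift_spec hS hb
  have lc := lift_spec hS hc
  obtain ⟨X, h1, h3⟩ := hS
  obtain ⟨oab, wab⟩ := h3 a ha b hb hab
  obtain ⟨oac, wac⟩ := h3 a ha c hc hac
  obtain ⟨obc, wbc⟩ := h3 b hb c hc hbc
  obtain ⟨-, wca⟩ := h3 c hc a ha hac.symm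
  refine ⟨wab, wac, wbc, ?_⟩
  obtain ⟨ta, hta⟩ := exists_shift h2 (x := lift e a) (y := X a) ((h1 a ha).2.1.trans la.1.symm)
    ((h1 a ha).2.2.trans la.2.symm) b (by rw [la.1]; exact wab)
  obtain ⟨tb, htb⟩ := exists_shift h2 (x := lift e b) (y := X b) ((h1 b hb).2.1.trans lb.1.symm)
    ((h1 b hb).2.2.trans lb.2.symm) c (by rw [lb.1]; exact wbc)
  obtain ⟨tc, htc⟩ := exists_shift h2 (x := lift e c) (y := X c) ((h1 c hc).2.1.trans lc.1.symm)
    ((h1 c hc).2.2.trans lc.2.symm) a (by rw [lc.1]; exact wca)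
  rw [hta, htb, orth_iff la.1 lb.1 wab] at oab
  rw [hta, htc, orth_iff la.1 lc.1 wac] at oac
  rw [htb, htc, orth_iff lb.1 lc.1 wbc] at obc
  linear_combination oac - oab - obc

lemma proj_neg (x : Fin 5 → F) : proj (-x) = - proj x := by
  simp [proj]

theorem no_octahedron (h2 : (2 : F) ≠ 0) {e : F} (he : ¬ IsSquare (-e))
    {H : Set (F × F × F)} (hH : ∀ v ∈ H, -v ∈ H → -v = v)
    (a b c : Fin 2 → F × F × F) (S : Fin 2 → Fin 2 → Fin 2 → Finset (F × F × F))
    (hS : ∀ i j k, Good e H (S i j k))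
    (ha : ∀ i j k, a i ∈ S i j k) (hb : ∀ i j k, b j ∈ S i j k) (hc : ∀ i j k, c k ∈ S i j k)
    (hab : ∀ i j, a i ≠ b j) (hac : ∀ i k, a i ≠ c k) (hbc : ∀ j k, b j ≠ c k) :
    a 1 = a 0 ∨ b 1 = b 0 ∨ c 1 = c 0 := by
  have T := fun i j k => tri h2 (hS i j k) (ha i j k) (hb i j k) (hc i j k)
    (hab i j) (hac i k) (hbc j k)
  have la := fun i => lift_spec (hS i 0 0) (ha i 0 0)
  have lb := fun j => lift_spec (hS 0 j 0) (hb 0 j 0)
  have lc := fun k => lift_spec (hS 0 0 k) (hc 0 0 k)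
  have wab := fun i j => (T i j 0).1
  have wac := fun i k => (T i 0 k).2.1
  have wbc := fun j k => (T 0 j k).2.2.1
  have t000 := (T 0 0 0).2.2.2
  have t001 := (T 0 0 1).2.2.2
  have t010 := (T 0 1 0).2.2.2
  have t011 := (T 0 1 1).2.2.2
  have t100 := (T 1 0 0).2.2.2
  have t101 := (T 1 0 1).2.2.2
  have t110 := (T 1 1 0).2.2.2
  have hmem : ∀ {i j k : Fin 2} {v : F × F × F}, v ∈ S i j k → v ∈ H := by
    intro i j k v hv
    obtain ⟨X, h1, -⟩ := hS i j k
    exact (h1 v hv).1
  have fin : ∀ {v w : F × F × F} {s t : F}, v ∈ H → w ∈ H → proj (lift e v) = v →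
      proj (lift e w) = w →
      (shift s (lift e w) = shift t (lift e v) ∨ shift s (lift e w) = - shift t (lift e v)) →
      w = v := by
    intro v w s t hv hw pv pw h
    rcases h with h | h
    · have := congrArg proj h
      rwa [proj_shift, proj_shift, pv, pw] at this
    · have := congrArg proj h
      rw [proj_neg, proj_shift, proj_shift, pv, pw] at this
      rw [this] at hw ⊢
      exact hH v hv hw
  have key := octa he
    (x0 := shift 0 (lift e (a 0)))
    (x1 := shift (phi e (a 0) (b 0) - phi e (a 1) (b 0)) (lift e (a 1)))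
    (y0 := shift (phi e (a 0) (b 0)) (lift e (b 0)))
    (y1 := shift (phi e (a 0) (b 1)) (lift e (b 1)))
    (z0 := shift (phi e (a 0) (c 0)) (lift e (c 0)))
    (z1 := shift (phi e (a 0) (c 1)) (lift e (c 1)))
    ((bil_shift_self _ _).trans (la 0).2) ((bil_shift_self _ _).trans (la 1).2)
    ((bil_shift_self _ _).trans (lb 0).2) ((bil_shift_self _ _).trans (lb 1).2)
    ((bil_shift_self _ _).trans (lc 0).2) ((bil_shift_self _ _).trans (lc 1).2)
    ((orth_iff (la 0).1 (lb 0).1 (wab 0 0) _ _).mpr (by ring))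
    ((orth_iff (la 0).1 (lb 1).1 (wab 0 1) _ _).mpr (by ring))
    ((orth_iff (la 1).1 (lb 0).1 (wab 1 0) _ _).mpr (by ring))
    ((orth_iff (la 1).1 (lb 1).1 (wab 1 1) _ _).mpr
      (by linear_combination t010 - t000 + t100 - t110))
    ((orth_iff (la 0).1 (lc 0).1 (wac 0 0) _ _).mpr (by ring))
    ((orth_iff (la 0).1 (lc 1).1 (wac 0 1) _ _).mpr (by ring))
    ((orth_iff (la 1).1 (lc 0).1 (wac 1 0) _ _).mpr (by linear_combination t100 - t000))
    ((orth_iff (la 1).1 (lc 1).1 (wac 1 1) _ _).mpr (by linear_combination t101 - t001))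
    ((orth_iff (lb 0).1 (lc 0).1 (wbc 0 0) _ _).mpr (by linear_combination -t000))
    ((orth_iff (lb 0).1 (lc 1).1 (wbc 0 1) _ _).mpr (by linear_combination -t001))
    ((orth_iff (lb 1).1 (lc 0).1 (wbc 1 0) _ _).mpr (by linear_combination -t010))
    ((orth_iff (lb 1).1 (lc 1).1 (wbc 1 1) _ _).mpr (by linear_combination -t011))
  rcases key with h | h | h
  · exact Or.inl (fin (hmem (ha 0 0 0)) (hmem (ha 1 0 0)) (la 0).1 (la 1).1 h)
  · exact Or.inr (Or.inl (fin (hmem (hb 0 0 0)) (hmem (hb 0 1 0)) (lb 0).1 (lb 1).1 h))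
  · exact Or.inr (Or.inr (fin (hmem (hc 0 0 0)) (hmem (hc 0 0 1)) (lc 0).1 (lc 1).1 h))

end Pool.Agent.Lib.MP_be95e3_co
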